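import Pool.Agent.Work.MP_f62247_an.FinB

open Pool.Agent.MinMod

theorem Pool.Agent.Results.MP_f62247_an.Lower.result :
    ∃ c δ : ℝ, 0 < c ∧ 0 < δ ∧ ∀ e : ℝ, 0 < e → e < δ →
      ((-1 - Real.exp (-c / e ^ 2) : ℝ) : EReal) ≤ minModConst (1 + e) := by
  obtain ⟨c, δ, hc, hδ, h⟩ := lower_bound
  exact ⟨c, δ, hc, hδ, fun e he hlt =>
    le_iInf fun f => le_iInf fun hf => h e he hlt f hf.1 hf.2.2⟩
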