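import Pool.Agent.Work.MP_f62247_an.FinC

open Pool.Agent.MinMod

theorem Pool.Agent.Results.MP_f62247_an.Upper.result :
    ∃ K δ : ℝ, 0 < K ∧ 0 < δ ∧ ∀ e : ℝ, 0 < e → e < δ →
      minModConst (1 + e) ≤ ((-1 - Real.exp (-K / e ^ 2) : ℝ) : EReal) :=
  upper_bound
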